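import Pool.Agent.Q153.KGame

/-!
MP_367a9a_gt: the games `G₁(𝒦,𝒦)` and `G_fin(𝒦,𝒦)` on the `k`-covers of a space need not be
determined.  The definitions (`KCover`, `hist`, `P1WinsOne`, `P2WinsOne`, `P1WinsFin`, `P2WinsFin`)
are in `Pool/Agent/Q153/KGameDefs.lean`.

The example (ZFC): the points of `X` are the finite sequences `s` of countable ordinals and one
strictly increasing sequence `(c_δ(n))` with limit `δ` for every countable limit ordinal `δ`; the
infinite sequences are isolated, and `U` is open if for every finite sequence `s ∈ U` there is
`α < ω₁` such that `U` contains all points which extend `s` and whose next entry, if there is one,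
is at least `α`.

P1 has no winning strategy in `G₁`: countable intersections of open sets are open and every
`k`-cover has a countable `k`-subcover (closing off, compact sets are finite).  So P1 may be assumed
to play countable `k`-covers, the positions are coded by finite sequences of natural numbers, and
for every compact `K` the intersection `W_K`, over all positions, of a member of the cover of P1
which contains `K` is open; P2 uses countably many sets `W_K` which form a `k`-cover.

P2 has no winning strategy in `G_fin`: P1 plays the covers `𝒰_α` whose members are the finite unions
of the basic neighbourhoods with the index `α`; by Fodor's argument the answers of P2 to `𝒰_α`, for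
unboundedly many `α`, are contained in the union of the neighbourhoods of finitely many points which
do not depend on `α`, and P1 chooses the `α`'s below a closed `δ` such that the point `δ` is never
covered.
-/

set_option autoImplicit false

namespace Pool.Agent.Results.MP_367a9a_gt.Undetermined

open Set Pool.Agent.Q153.KGame

/-- There is a Hausdorff space `X` with a base of clopen sets, Lindelöf, in which countable
intersections of open sets are open, such that neither P1 nor P2 has a winning strategy in
`G₁(𝒦,𝒦)`, and neither P1 nor P2 has a winning strategy in `G_fin(𝒦,𝒦)`: both games are
undetermined. -/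
theorem result : ∃ (X : Type) (_ : TopologicalSpace X), T2Space X ∧ LindelofSpace X ∧
    (∀ (U : Set X), IsOpen U → ∀ x ∈ U, ∃ V : Set X, IsClopen V ∧ x ∈ V ∧ V ⊆ U) ∧
    (∀ U : ℕ → Set X, (∀ n, IsOpen (U n)) → IsOpen (⋂ n, U n)) ∧
    (¬ P1WinsOne X ∧ ¬ P2WinsOne X) ∧ (¬ P1WinsFin X ∧ ¬ P2WinsFin X) :=
  ⟨Pt, inferInstance, t2, lindelof, exists_clopen, isOpen_iInter',
    ⟨not_P1, fun h => not_P2 h.fin⟩, fun h => not_P1 h.one, not_P2⟩

end Pool.Agent.Results.MP_367a9a_gt.Undetermined
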